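import Mathlib
import Pool.Agent.R343.LD1
import Pool.Agent.W47.JL.Gen

set_option autoImplicit false

/-! # Lempel-Ziv phrases of expansions with errors, uniform in the numbers

`step`: the approximation which belongs to a copied phrase of a changed expansion;
`free_window`; `bound`: from a measure;
`sepE`, `jointE`, `largeE`: the main estimates. After `Pool/Agent/R343/LD2.lean`, `LD3.lean`. -/

namespace Pool.Agent.K3h2.LZ

open Finset Pool.Agent.R343.LP Pool.Agent.R343.LD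
open Pool.Agent.W47.JL (Meas)

/-- a window without points of `S` -/
theorem free_window (S : Finset ℝ) (w : ℕ → ℝ) (hw : Monotone w) :
    ∃ r ≤ S.card, ∀ β ∈ S, ¬ (w r < β ∧ β ≤ w (r + 1)) := by
  classical
  by_contra hcon
  push Not at hcon
  have h1 : ∀ r : ℕ, ∃ β : ℝ, r ≤ S.card → β ∈ S ∧ w r < β ∧ β ≤ w (r + 1) := by
    intro r
    by_cases hr : r ≤ S.card
    · obtain ⟨β, hβ⟩ := hcon r hr
      exact ⟨β, fun _ => hβ⟩
    · exact ⟨0, fun h => absurd h hr⟩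
  choose f hf using h1
  have hcard : S.card < (range (S.card + 1)).card := by
    rw [Finset.card_range]
    omega
  obtain ⟨r, hr, r', hr', hne, heq⟩ := Finset.exists_ne_map_eq_of_card_lt_of_maps_to hcard
    (f := f) (fun r hr => (hf r (by
      have := Finset.mem_range.1 (Finset.mem_coe.1 hr)
      omega)).1)
  rw [Finset.mem_range] at hr hr'
  have key : ∀ r r', r < r' → r' ≤ S.card → f r = f r' → False := by
    intro r r' h h' he
    have h3 := (hf r (by omega)).2.2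
    have h4 := (hf r' h').2.1
    rw [he] at h3
    have h5 : w (r + 1) ≤ w r' := hw (by omega)
    linarith
  rcases lt_or_gt_of_ne hne with h | h
  · exact key r r' h (by omega) heq
  · exact key r' r h (by omega) heq.symm

/-- **The approximation which belongs to a copied phrase** of an expansion `s` which agrees with the
expansion `a` of `y` in the places `m0, …, m - 1`. -/
theorem step {b h : ℕ} (hb : 2 ≤ b) {a s : ℕ → ℤ} (ha : ∀ i, |a i| ≤ ((b ^ h : ℕ) : ℤ))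
    (hs : ∀ i, |s i| ≤ ((b ^ h : ℕ) : ℤ)) {y : ℝ} (hy : Exp b a y) {n m p m0 : ℕ} (hp0 : 0 < p)
    (hpn : p ≤ n) (hnm : n ≤ m) (hm0 : n - p ≤ m0)
    (hcopy : ∀ j, n ≤ j → j < m → s j = s (j - p)) (hsa : ∀ j, m0 ≤ j → j < m → s j = a j) :
    ∃ P : ℤ, |((b ^ m0 * (b ^ p - 1) : ℕ) : ℝ) * y - P| * (b : ℝ) ^ m ≤
      ((b ^ m0 * (b ^ p - 1) : ℕ) : ℝ) * (2 * (b : ℝ) ^ (h + 1)) := by
  have hb0 : (0 : ℝ) < b := by exact_mod_cast (by omega : 0 < b)
  obtain ⟨s', hs'⟩ : ∃ s' : ℕ → ℤ, s' = fun j => if j < m then s j else a j := ⟨_, rfl⟩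
  have hs'b : ∀ i, |s' i| ≤ ((b ^ h : ℕ) : ℤ) := by
    intro i
    rw [hs']
    simp only
    split_ifs
    · exact hs i
    · exact ha i
  obtain ⟨δ, hδ⟩ : ∃ δ : ℕ → ℤ, δ = fun j => s' j - a j := ⟨_, rfl⟩
  have hδ0 : ∀ j, j ∉ range m0 → δ j = 0 := by
    intro j hj
    rw [Finset.mem_range, not_lt] at hj
    rw [hδ, hs']
    simp only
    split_ifs with h1
    · rw [hsa j hj h1, sub_self]
    · rw [sub_self]
  have hy' : Exp b s' (y + ∑ j ∈ range m0, (δ j : ℝ) / (b : ℝ) ^ (j + 1)) := by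
    have h1 : HasSum (fun i : ℕ => (δ i : ℝ) / (b : ℝ) ^ (i + 1))
        (∑ j ∈ range m0, (δ j : ℝ) / (b : ℝ) ^ (j + 1)) := by
      refine hasSum_sum_of_ne_finset_zero fun j hj => ?_
      rw [hδ0 j hj, Int.cast_zero, zero_div]
    have h2 := HasSum.add hy h1
    have h3 : (fun i : ℕ => (a i : ℝ) / (b : ℝ) ^ (i + 1) + (δ i : ℝ) / (b : ℝ) ^ (i + 1)) =
        fun i : ℕ => (s' i : ℝ) / (b : ℝ) ^ (i + 1) := by
      funext i
      rw [hδ]
      simp only
      push_cast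
      ring
    rw [h3] at h2
    exact h2
  have hcopy' : ∀ j, n ≤ j → j < m → s' j = s' (j - p) := by
    intro j h1 h2
    rw [hs']
    simp only
    rw [if_pos h2, if_pos (by omega)]
    exact hcopy j h1 h2
  obtain ⟨q0, P0, hq0, h1, -, h2⟩ := approx' hb hs'b hy' hp0 hpn hnm hcopy'
  obtain ⟨e, he⟩ := Nat.exists_eq_add_of_le hm0
  have hbp : 1 ≤ b ^ p := Nat.one_le_pow _ _ (by omega)
  have hqq : ((b ^ m0 * (b ^ p - 1) : ℕ) : ℝ) = (b : ℝ) ^ e * q0 := by
    rw [hq0, he]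
    push_cast [Nat.cast_sub hbp]
    rw [pow_add]
    ring
  refine ⟨(b : ℤ) ^ e * P0 - ((b : ℤ) ^ p - 1) *
    ∑ j ∈ range m0, δ j * (b : ℤ) ^ (m0 - (j + 1)), ?_⟩
  have hD : ((b ^ m0 * (b ^ p - 1) : ℕ) : ℝ) * (∑ j ∈ range m0, (δ j : ℝ) / (b : ℝ) ^ (j + 1)) =
      ((b : ℝ) ^ p - 1) * ∑ j ∈ range m0, (δ j : ℝ) * (b : ℝ) ^ (m0 - (j + 1)) := by
    rw [Finset.mul_sum, Finset.mul_sum]
    refine Finset.sum_congr rfl fun j hj => ?_
    rw [Finset.mem_range] at hj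
    have h3 : (b : ℝ) ^ m0 = (b : ℝ) ^ (m0 - (j + 1)) * (b : ℝ) ^ (j + 1) := by
      rw [← pow_add, Nat.sub_add_cancel (by omega)]
    push_cast [Nat.cast_sub hbp]
    rw [h3]
    field_simp
  have h3 : ((b ^ m0 * (b ^ p - 1) : ℕ) : ℝ) * y - (((b : ℤ) ^ e * P0 - ((b : ℤ) ^ p - 1) *
      ∑ j ∈ range m0, δ j * (b : ℤ) ^ (m0 - (j + 1)) : ℤ) : ℝ) =
      (b : ℝ) ^ e * ((q0 : ℝ) * (y + ∑ j ∈ range m0, (δ j : ℝ) / (b : ℝ) ^ (j + 1)) - P0) := by
    have h4 : (b : ℝ) ^ e * ((q0 : ℝ) * (y + ∑ j ∈ range m0, (δ j : ℝ) / (b : ℝ) ^ (j + 1)) - P0) =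
        ((b ^ m0 * (b ^ p - 1) : ℕ) : ℝ) * y +
        ((b ^ m0 * (b ^ p - 1) : ℕ) : ℝ) * (∑ j ∈ range m0, (δ j : ℝ) / (b : ℝ) ^ (j + 1)) -
        (b : ℝ) ^ e * P0 := by
      rw [hqq]
      ring
    rw [h4, hD]
    push_cast
    ring
  rw [h3, abs_mul, abs_of_pos (pow_pos hb0 e), hqq, mul_assoc, mul_assoc]
  exact mul_le_mul_of_nonneg_left h2 (pow_pos hb0 e).le

/-- from approximations of all numbers to a bound for the exponents -/
theorem bound {J : ℕ} {x : Fin J → ℝ} {μ c : ℝ} (hμ : 1 ≤ μ) (hc : 0 < c) (hM : Meas J x μ c 0)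
    {Q : ℕ} (hQ : 1 ≤ Q) {κ t t' D : ℝ} (hQt : (Q : ℝ) ≤ Real.exp (κ * t))
    (h : ∀ j, ∃ P : ℤ, |(Q : ℝ) * x j - P| * Real.exp t' ≤ Q * (2 * Real.exp D)) :
    t' ≤ μ * (κ * t) + Real.log (2 / c) + D := by
  choose P hP using h
  obtain ⟨j, hj⟩ := hM Q hQ P
  rw [Real.rpow_zero, mul_one] at hj
  have hQ0 : (0 : ℝ) < Q := by exact_mod_cast hQ
  have hE : 0 < Real.exp t' := Real.exp_pos _
  have h1 : c * Real.exp t' ≤ Real.exp (μ * (κ * t)) * (2 * Real.exp D) := by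
    calc c * Real.exp t' ≤ (Q : ℝ) ^ (μ - 1) * |(Q : ℝ) * x j - P j| * Real.exp t' :=
          mul_le_mul_of_nonneg_right hj hE.le
      _ = (Q : ℝ) ^ (μ - 1) * (|(Q : ℝ) * x j - P j| * Real.exp t') := by ring
      _ ≤ (Q : ℝ) ^ (μ - 1) * (Q * (2 * Real.exp D)) :=
          mul_le_mul_of_nonneg_left (hP j) (Real.rpow_nonneg hQ0.le _)
      _ = (Q : ℝ) ^ μ * (2 * Real.exp D) := by
          rw [← mul_assoc, ← Real.rpow_add_one hQ0.ne']
          congr 2
          ring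
      _ ≤ Real.exp (μ * (κ * t)) * (2 * Real.exp D) := by
          refine mul_le_mul_of_nonneg_right ?_ (by positivity)
          calc (Q : ℝ) ^ μ ≤ (Real.exp (κ * t)) ^ μ :=
                Real.rpow_le_rpow hQ0.le hQt (by linarith)
            _ = Real.exp (μ * (κ * t)) := by
              rw [← Real.exp_mul]
              congr 1
              ring
  have h2 : Real.exp t' ≤ 2 / c * (Real.exp (μ * (κ * t)) * Real.exp D) := by
    rw [div_mul_eq_mul_div, le_div_iff₀ hc]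
    linarith
  have h3 := Real.log_le_log (Real.exp_pos _) h2
  rw [Real.log_exp, Real.log_mul (by positivity) (by positivity),
    Real.log_mul (by positivity) (by positivity), Real.log_exp, Real.log_exp] at h3
  linarith

/-- the phrase which covers a window `(t, t']` without ends of phrases -/
theorem phrase {b : ℕ} (hb : 2 ≤ b) {c : ℕ → ℕ} {z : ℕ} (hc0 : c 0 = 0) {t t' B : ℝ}
    (ht0 : 0 ≤ t) (hlB : Real.log b ≤ B) (htt' : t + B ≤ t')
    (hcz : t' < c z * Real.log b)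
    (hfree : ∀ i, 1 ≤ i → i ≤ z → ¬ (t < c i * Real.log b ∧ c i * Real.log b ≤ t')) :
    ∃ i < z, (c i : ℝ) * Real.log b ≤ t ∧ t' < (c (i + 1) : ℝ) * Real.log b ∧
      c (i + 1) ≠ c i + 1 := by
  have hlb : 0 < Real.log b := Real.log_pos (by exact_mod_cast (by omega : 1 < b))
  have hBt : t < t' := by linarith
  obtain ⟨i, hi1, hi2, hi3⟩ : ∃ i, i < z ∧ (c i : ℝ) * Real.log b ≤ t ∧
      t < (c (i + 1) : ℝ) * Real.log b := by
    by_contra hno
    push Not at hno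
    have h1 : ∀ i ≤ z, (c i : ℝ) * Real.log b ≤ t := by
      intro i
      induction i with
      | zero =>
        intro _
        rw [hc0, Nat.cast_zero, zero_mul]
        exact ht0
      | succ i ih =>
        intro hi
        exact hno i (by omega) (ih (by omega))
    have h2 := h1 z le_rfl
    linarith
  have hbig : t' < (c (i + 1) : ℝ) * Real.log b := by
    by_contra hno
    push Not at hno
    exact hfree (i + 1) (by omega) (by omega) ⟨hi3, hno⟩
  refine ⟨i, hi1, hi2, hbig, fun hlit => ?_⟩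
  rw [hlit] at hbig
  push_cast at hbig
  nlinarith

/-- **The approximations which belong to a window** `(t, t']` without ends of phrases and without
errors. -/
theorem win {ι : Type} {b h d : ℕ} (hb : 2 ≤ b) (hd : d = 1 ∨ d = 2) {a s : ι → ℕ → ℤ}
    (ha : ∀ j i, |a j i| ≤ ((b ^ h : ℕ) : ℤ)) (hs : ∀ j i, |s j i| ≤ ((b ^ h : ℕ) : ℤ))
    {x : ι → ℝ} (hx : ∀ j, ∃ n : ℤ, Exp b (a j) (x j - n)) {c : ℕ → ℕ} {z : ℕ} (hc0 : c 0 = 0)
    (E : Finset ℕ) (hE : ∀ j, ∀ i < c z, i ∉ E → s j i = a j i) (hdE : d = 1 → E = ∅)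
    {t t' B : ℝ} (ht0 : 0 ≤ t) (hlB : Real.log b ≤ B) (htt' : t + B ≤ t')
    (hcz : t' < c z * Real.log b)
    (hph : ∀ i < z, c (i + 1) = c i + 1 ∨ (c i ≤ c (i + 1) ∧ ∃ p, 0 < p ∧ p ≤ c i ∧
      ∀ l, c i ≤ l → l < c (i + 1) → ∀ j, s j l = s j (l - p)))
    (hfree : ∀ i, 1 ≤ i → i ≤ z → ¬ (t < c i * Real.log b ∧ c i * Real.log b ≤ t'))
    (hfreeE : ∀ e ∈ E, ¬ (t < ((e : ℝ) + 1) * Real.log b ∧ ((e : ℝ) + 1) * Real.log b ≤ t')) :
    ∃ q : ℕ, 1 ≤ q ∧ (q : ℝ) ≤ Real.exp (d * t) ∧ ∀ j, ∃ P : ℤ,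
      |(q : ℝ) * x j - P| * Real.exp t' ≤ q * (2 * Real.exp ((h + 2) * B)) := by
  have hb1 : (1 : ℝ) < b := by exact_mod_cast (by omega : 1 < b)
  have hb0 : (0 : ℝ) < b := by linarith
  have hlb : 0 < Real.log b := Real.log_pos hb1
  have hBt : t ≤ t' := by linarith
  have ht'0 : 0 ≤ t' := by linarith
  have hexp : ∀ k : ℕ, (b : ℝ) ^ k = Real.exp (k * Real.log b) := fun k => by
    rw [← Real.exp_log (pow_pos hb0 k), Real.log_pow]
  obtain ⟨i, hiz, hit, hit', hne⟩ := phrase hb hc0 ht0 hlB htt' hcz hfree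
  rcases hph i hiz with hlit | ⟨hnm, p, hp0, hpn, hcopy⟩
  · exact absurd hlit hne
  -- the two places
  obtain ⟨m1, hm1⟩ : ∃ m1 : ℕ, m1 = ⌊t' / Real.log b⌋₊ := ⟨_, rfl⟩
  obtain ⟨m2, hm2⟩ : ∃ m2 : ℕ, m2 = ⌊t / Real.log b⌋₊ := ⟨_, rfl⟩
  have hm1a : (m1 : ℝ) * Real.log b ≤ t' := by
    rw [← le_div_iff₀ hlb, hm1]
    exact Nat.floor_le (div_nonneg ht'0 hlb.le)
  have hm1b : t' < ((m1 : ℝ) + 1) * Real.log b := by
    rw [← div_lt_iff₀ hlb, hm1]
    exact Nat.lt_floor_add_one _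
  have hm2a : (m2 : ℝ) * Real.log b ≤ t := by
    rw [← le_div_iff₀ hlb, hm2]
    exact Nat.floor_le (div_nonneg ht0 hlb.le)
  have hm2b : t < ((m2 : ℝ) + 1) * Real.log b := by
    rw [← div_lt_iff₀ hlb, hm2]
    exact Nat.lt_floor_add_one _
  have hm1c : m1 < c (i + 1) := by
    have h1 : (m1 : ℝ) < c (i + 1) := lt_of_mul_lt_mul_right (lt_of_le_of_lt hm1a hit') hlb.le
    exact_mod_cast h1
  have hcm2 : c i ≤ m2 := by
    rw [hm2]
    refine Nat.le_floor ?_
    rw [le_div_iff₀ hlb]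
    exact hit
  have hm21 : m2 ≤ m1 := by
    rw [hm1, hm2]
    exact Nat.floor_le_floor (div_le_div_of_nonneg_right hBt hlb.le)
  have hmono : ∀ k, i + 1 + k ≤ z → c (i + 1) ≤ c (i + 1 + k) := by
    intro k
    induction k with
    | zero => intro _; exact le_rfl
    | succ k ih =>
      intro hk
      have h1 := ih (by omega)
      have h2 : c (i + 1 + k) ≤ c (i + 1 + (k + 1)) := by
        rcases hph (i + 1 + k) (by omega) with h3 | ⟨h3, -⟩
        · rw [← add_assoc, h3]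
          omega
        · exact h3
      omega
  have hciz : c (i + 1) ≤ c z := by
    have h1 := hmono (z - (i + 1)) (by omega)
    rwa [show i + 1 + (z - (i + 1)) = z by omega] at h1
  have hbp : 1 ≤ b ^ p := Nat.one_le_pow _ _ (by omega)
  have hbp2 : 2 ≤ b ^ p := by
    calc 2 ≤ b := hb
      _ = b ^ 1 := (pow_one b).symm
      _ ≤ b ^ p := Nat.pow_le_pow_right (by omega) hp0
  -- the denominator
  obtain ⟨m0, hm0n, hagree, hsize⟩ : ∃ m0 : ℕ, c i - p ≤ m0 ∧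
      (∀ j l, m0 ≤ l → l < m1 → s j l = a j l) ∧
      ((b ^ m0 * (b ^ p - 1) : ℕ) : ℝ) ≤ Real.exp (d * t) := by
    rcases hd with hd | hd
    · refine ⟨c i - p, le_rfl, fun j l _ h2 => ?_, ?_⟩
      · refine hE j l (by omega) ?_
        rw [hdE hd]
        exact Finset.notMem_empty _
      · have h1 : b ^ (c i - p) * (b ^ p - 1) ≤ b ^ (c i) := by
          calc b ^ (c i - p) * (b ^ p - 1) ≤ b ^ (c i - p) * b ^ p :=
                Nat.mul_le_mul_left _ (Nat.sub_le _ _)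
            _ = b ^ (c i) := by rw [← pow_add, Nat.sub_add_cancel hpn]
        have h2 : ((b ^ (c i - p) * (b ^ p - 1) : ℕ) : ℝ) ≤ (b : ℝ) ^ (c i) := by
          exact_mod_cast h1
        rw [hexp] at h2
        refine h2.trans (Real.exp_le_exp.2 ?_)
        rw [hd]
        push_cast
        linarith
    · refine ⟨m2, by omega, fun j l h1 h2 => ?_, ?_⟩
      · refine hE j l (by omega) fun hl => ?_
        refine hfreeE l hl ⟨?_, ?_⟩
        · have h3 : ((m2 : ℝ) + 1) * Real.log b ≤ ((l : ℝ) + 1) * Real.log b := by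
            refine mul_le_mul_of_nonneg_right ?_ hlb.le
            have : (m2 : ℝ) ≤ l := by exact_mod_cast h1
            linarith
          linarith
        · have h3 : ((l : ℝ) + 1) * Real.log b ≤ (m1 : ℝ) * Real.log b := by
            refine mul_le_mul_of_nonneg_right ?_ hlb.le
            exact_mod_cast h2
          linarith
      · have h1 : b ^ m2 * (b ^ p - 1) ≤ b ^ (m2 + c i) := by
          calc b ^ m2 * (b ^ p - 1) ≤ b ^ m2 * b ^ p :=
                Nat.mul_le_mul_left _ (Nat.sub_le _ _)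
            _ ≤ b ^ m2 * b ^ (c i) := Nat.mul_le_mul_left _ (Nat.pow_le_pow_right (by omega) hpn)
            _ = b ^ (m2 + c i) := by rw [pow_add]
        have h2 : ((b ^ m2 * (b ^ p - 1) : ℕ) : ℝ) ≤ (b : ℝ) ^ (m2 + c i) := by
          exact_mod_cast h1
        rw [hexp] at h2
        refine h2.trans (Real.exp_le_exp.2 ?_)
        rw [hd]
        push_cast
        linarith
  refine ⟨b ^ m0 * (b ^ p - 1), ?_, hsize, fun j => ?_⟩
  · exact Nat.one_le_iff_ne_zero.2 (Nat.mul_ne_zero (pow_ne_zero _ (by omega)) (by omega))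
  · obtain ⟨n, hn⟩ := hx j
    obtain ⟨P, hP⟩ := step hb (ha j) (hs j) hn hp0 hpn (hcm2.trans hm21) hm0n
      (fun l h1 h2 => hcopy l h1 (by omega) j) (fun l h1 h2 => hagree j l h1 h2)
    obtain ⟨q, hq⟩ : ∃ q : ℕ, q = b ^ m0 * (b ^ p - 1) := ⟨_, rfl⟩
    rw [← hq] at hP ⊢
    refine ⟨P + n * q, ?_⟩
    have e1 : (q : ℝ) * x j - ((P + n * q : ℤ) : ℝ) = (q : ℝ) * (x j - n) - P := by
      push_cast
      ring
    rw [e1]
    have h1 : Real.exp t' ≤ (b : ℝ) ^ m1 * b := by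
      rw [← pow_succ, hexp]
      refine Real.exp_le_exp.2 ?_
      push_cast
      exact hm1b.le
    have h2 : (b : ℝ) ^ (h + 1) * b ≤ Real.exp ((h + 2) * B) := by
      rw [← pow_succ, hexp]
      refine Real.exp_le_exp.2 ?_
      push_cast
      have h3 := mul_le_mul_of_nonneg_left hlB (by positivity : (0 : ℝ) ≤ (h : ℝ) + 1 + 1)
      linarith
    calc |(q : ℝ) * (x j - n) - P| * Real.exp t' ≤
          |(q : ℝ) * (x j - n) - P| * ((b : ℝ) ^ m1 * b) :=
          mul_le_mul_of_nonneg_left h1 (abs_nonneg _)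
      _ = |(q : ℝ) * (x j - n) - P| * (b : ℝ) ^ m1 * b := by ring
      _ ≤ q * (2 * (b : ℝ) ^ (h + 1)) * b := mul_le_mul_of_nonneg_right hP hb0.le
      _ = q * (2 * ((b : ℝ) ^ (h + 1) * b)) := by ring
      _ ≤ q * (2 * Real.exp ((h + 2) * B)) := by
        refine mul_le_mul_of_nonneg_left ?_ (Nat.cast_nonneg _)
        linarith

end Pool.Agent.K3h2.LZ
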