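import Mathlib
import Pool.Agent.K3h2.LZ.Win

set_option autoImplicit false

/-! # Lempel-Ziv phrases of expansions with errors: the main estimates -/

namespace Pool.Agent.K3h2.LZ

open Finset Pool.Agent.R343.LP Pool.Agent.R343.LD
open Pool.Agent.W47.JL (Meas)

/-- the ends of the windows -/
noncomputable def wd (A K : ℝ) (r : ℕ) : ℝ := A * ∑ i ∈ range r, K ^ i

theorem wd_succ (A K : ℝ) (r : ℕ) : wd A K (r + 1) = K * wd A K r + A := by
  unfold wd
  rw [geom_sum_succ]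
  ring

theorem wd_nonneg {A K : ℝ} (hA : 0 ≤ A) (hK : 0 ≤ K) (r : ℕ) : 0 ≤ wd A K r :=
  mul_nonneg hA (Finset.sum_nonneg fun i _ => pow_nonneg hK i)

theorem wd_mono {A K : ℝ} (hA : 0 ≤ A) (hK : 0 ≤ K) : Monotone (wd A K) := by
  refine monotone_nat_of_le_succ fun r => ?_
  unfold wd
  rw [Finset.sum_range_succ, mul_add]
  have := mul_nonneg hA (pow_nonneg hK r)
  linarith

theorem wd_le {A K : ℝ} (hA : 0 ≤ A) (hK : 2 ≤ K) (r : ℕ) : wd A K (r + 1) ≤ 2 * A * K ^ r := by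
  have h1 : ∀ r : ℕ, ∑ i ∈ range r, K ^ i ≤ K ^ r - 1 := by
    intro r
    induction r with
    | zero => simp
    | succ r ih =>
      rw [Finset.sum_range_succ, pow_succ]
      have h2 : 0 < K ^ r := pow_pos (by linarith) r
      nlinarith
  unfold wd
  rw [Finset.sum_range_succ]
  have h2 := h1 r
  have h3 : A * (∑ i ∈ range r, K ^ i + K ^ r) ≤ A * (2 * K ^ r) :=
    mul_le_mul_of_nonneg_left (by linarith) hA
  linarith

/-- **Separate bases and parsings, with errors** (`d = 2`) or without (`d = 1`). -/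
theorem sepE (J : ℕ) (μ c : ℝ) (hμ : 1 ≤ μ) (hc : 0 < c) (d : ℕ) (hd : d = 1 ∨ d = 2)
    (hK2 : 2 ≤ (d : ℝ) * J * μ) (h : ℕ) : ∃ C : ℝ, 0 < C ∧
      ∀ x : Fin J → ℝ, Meas J x μ c 0 → ∀ b : Fin J → ℕ, (∀ j, 2 ≤ b j) →
      ∀ a s : Fin J → ℕ → ℤ, (∀ j i, |a j i| ≤ ((b j ^ h : ℕ) : ℤ)) →
      (∀ j i, |s j i| ≤ ((b j ^ h : ℕ) : ℤ)) → (∀ j, ∃ n : ℤ, Exp (b j) (a j) (x j - n)) →
      ∀ (L z : Fin J → ℕ) (E : Fin J → Finset ℕ), (∀ j i, i < L j → i ∉ E j → s j i = a j i) →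
      (d = 1 → ∀ j, E j = ∅) → (∀ j, LZ (s j) (L j) (z j)) → ∀ Λ : ℝ,
        (∀ j, Λ ≤ L j * Real.log (b j)) →
        Λ ≤ C * (∑ j, Real.log (b j)) * (d * J * μ) ^ (∑ j, (z j + (E j).card)) := by
  classical
  obtain ⟨K, hK⟩ : ∃ K : ℝ, K = d * J * μ := ⟨_, rfl⟩
  rw [← hK] at hK2
  have hl2 : 0 < Real.log 2 := Real.log_pos one_lt_two
  obtain ⟨C0, hC0⟩ : ∃ C0 : ℝ, C0 = h + 3 + |Real.log (2 / c)| / Real.log 2 := ⟨_, rfl⟩
  have hC01 : 1 ≤ C0 := by
    rw [hC0]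
    have h1 : 0 ≤ |Real.log (2 / c)| / Real.log 2 := by positivity
    have h2 : (0 : ℝ) ≤ h := Nat.cast_nonneg _
    linarith
  refine ⟨2 * C0, by positivity, ?_⟩
  intro x hM b hb a s ha hs hx L z E hE hdE hLZ Λ hΛ
  have hJ : 0 < J := by
    obtain ⟨j, -⟩ := hM 1 le_rfl (fun _ => 0)
    exact lt_of_le_of_lt (Nat.zero_le _) j.2
  obtain ⟨B, hB⟩ : ∃ B : ℝ, B = ∑ j, Real.log (b j) := ⟨_, rfl⟩
  have hlb : ∀ j, Real.log 2 ≤ Real.log (b j) := fun j =>
    Real.log_le_log (by norm_num) (by exact_mod_cast hb j)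
  have hlB : ∀ j, Real.log (b j) ≤ B := by
    intro j
    rw [hB]
    exact Finset.single_le_sum (f := fun j => Real.log (b j))
      (fun j _ => hl2.le.trans (hlb j)) (Finset.mem_univ j)
  have hB2 : Real.log 2 ≤ B := (hlb ⟨0, hJ⟩).trans (hlB ⟨0, hJ⟩)
  have hB0 : 0 < B := by linarith
  rw [← hB, ← hK]
  obtain ⟨A, hA⟩ : ∃ A : ℝ, A = C0 * B := ⟨_, rfl⟩
  have hA0 : 0 < A := by
    rw [hA]
    positivity
  have hBA : B ≤ A := by
    rw [hA]
    nlinarith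
  by_contra hcon
  push Not at hcon
  choose cc hc0 hcz hph using hLZ
  -- the events
  obtain ⟨S, hS⟩ : ∃ S : Finset ℝ, S = univ.biUnion fun j : Fin J =>
      (Icc 1 (z j)).image (fun i => (cc j i : ℝ) * Real.log (b j)) ∪
        (E j).image (fun e : ℕ => ((e : ℝ) + 1) * Real.log (b j)) := ⟨_, rfl⟩
  have hScard : S.card ≤ ∑ j, (z j + (E j).card) := by
    rw [hS]
    refine Finset.card_biUnion_le.trans (Finset.sum_le_sum fun j _ => ?_)
    refine (Finset.card_union_le _ _).trans (Nat.add_le_add ?_ Finset.card_image_le)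
    refine Finset.card_image_le.trans ?_
    rw [Nat.card_Icc]
    omega
  obtain ⟨r, hr, hfree⟩ := free_window S (wd A K) (wd_mono hA0.le (by linarith))
  have hrΛ : wd A K (r + 1) < Λ := by
    calc wd A K (r + 1) ≤ wd A K ((∑ j, (z j + (E j).card)) + 1) :=
          wd_mono hA0.le (by linarith) (by omega)
      _ ≤ 2 * A * K ^ (∑ j, (z j + (E j).card)) := wd_le hA0.le hK2 _
      _ = 2 * C0 * B * K ^ (∑ j, (z j + (E j).card)) := by
        rw [hA]
        ring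
      _ < Λ := hcon
  obtain ⟨t, ht⟩ : ∃ t : ℝ, t = wd A K r := ⟨_, rfl⟩
  have ht0 : 0 ≤ t := by
    rw [ht]
    exact wd_nonneg hA0.le (by linarith) r
  rw [wd_succ, ← ht] at hfree hrΛ
  have htt' : t + B ≤ K * t + A := by nlinarith
  have happ : ∀ j, ∃ q : ℕ, 1 ≤ q ∧ (q : ℝ) ≤ Real.exp (d * t) ∧ ∃ P : ℤ,
      |(q : ℝ) * x j - P| * Real.exp (K * t + A) ≤ q * (2 * Real.exp ((h + 2) * B)) := by
    intro j
    have h1 := win (ι := Unit) (a := fun _ => a j) (s := fun _ => s j) (x := fun _ => x j)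
      (hb j) hd (fun _ => ha j) (fun _ => hs j) (fun _ => hx j) (hc0 j) (E j)
      (fun _ i hi => hE j i (by rw [← hcz j]; exact hi)) (fun h => hdE h j) ht0 (hlB j) htt'
      (by rw [hcz j]; exact hrΛ.trans_le (hΛ j))
      (fun i hi => by
        rcases hph j i hi with h1 | ⟨h1, p, h2, h3, h4⟩
        · exact Or.inl h1
        · exact Or.inr ⟨h1, p, h2, h3, fun l h5 h6 _ => h4 l h5 h6⟩)
      (fun i h1 h2 => hfree _ (by
        rw [hS, Finset.mem_biUnion]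
        exact ⟨j, Finset.mem_univ j, Finset.mem_union_left _
          (Finset.mem_image_of_mem _ (Finset.mem_Icc.2 ⟨h1, h2⟩))⟩))
      (fun e he => hfree _ (by
        rw [hS, Finset.mem_biUnion]
        exact ⟨j, Finset.mem_univ j, Finset.mem_union_right _
          (Finset.mem_image_of_mem (fun e : ℕ => ((e : ℝ) + 1) * Real.log (b j)) he)⟩))
    obtain ⟨q, h2, h3, h4⟩ := h1
    exact ⟨q, h2, h3, h4 ()⟩
  choose q hq1 hq2 P hP using happ
  have hQ1 : 1 ≤ ∏ j, q j := Nat.one_le_iff_ne_zero.2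
    (Finset.prod_ne_zero_iff.2 fun j _ => by have := hq1 j; omega)
  have hQt : ((∏ j, q j : ℕ) : ℝ) ≤ Real.exp ((d * J : ℝ) * t) := by
    rw [Nat.cast_prod]
    calc ∏ j, (q j : ℝ) ≤ ∏ _j : Fin J, Real.exp (d * t) :=
          Finset.prod_le_prod (fun i _ => Nat.cast_nonneg _) fun i _ => hq2 i
      _ = Real.exp ((d * J : ℝ) * t) := by
        rw [Finset.prod_const, Finset.card_univ, Fintype.card_fin, ← Real.exp_nat_mul]
        congr 1
        ring
  have hfin := bound hμ hc hM hQ1 hQt (t' := K * t + A) (D := (h + 2) * B) fun j => by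
    obtain ⟨R, hR⟩ : ∃ R : ℕ, R = ∏ i ∈ univ.erase j, q i := ⟨_, rfl⟩
    have hQ : (∏ j, q j) = q j * R := by
      rw [hR, Finset.mul_prod_erase univ q (Finset.mem_univ j)]
    refine ⟨R * P j, ?_⟩
    rw [hQ]
    have e0 : ((q j * R : ℕ) : ℝ) * x j - ((R * P j : ℤ) : ℝ) = R * ((q j : ℝ) * x j - P j) := by
      push_cast
      ring
    rw [e0, abs_mul, Nat.abs_cast]
    have h1 := mul_le_mul_of_nonneg_left (hP j) (Nat.cast_nonneg R : (0 : ℝ) ≤ R)
    push_cast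
    linarith
  have h11 : |Real.log (2 / c)| ≤ |Real.log (2 / c)| / Real.log 2 * B := by
    rw [div_mul_eq_mul_div, le_div_iff₀ hl2]
    exact mul_le_mul_of_nonneg_left hB2 (abs_nonneg _)
  have h12 := le_abs_self (Real.log (2 / c))
  have h13 : μ * ((d * J : ℝ) * t) = K * t := by
    rw [hK]
    ring
  have h14 : A = (h + 2) * B + B + |Real.log (2 / c)| / Real.log 2 * B := by
    rw [hA, hC0]
    ring
  rw [h13] at hfin
  linarith

/-- **One base and one parsing, with errors** (`d = 2`) or without (`d = 1`). -/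
theorem jointE (J : ℕ) (μ c : ℝ) (hμ : 1 ≤ μ) (hc : 0 < c) (d : ℕ) (hd : d = 1 ∨ d = 2)
    (hK2 : 2 ≤ (d : ℝ) * μ) (h : ℕ) : ∃ C : ℝ, 0 < C ∧
      ∀ x : Fin J → ℝ, Meas J x μ c 0 → ∀ b : ℕ, 2 ≤ b →
      ∀ a s : Fin J → ℕ → ℤ, (∀ j i, |a j i| ≤ ((b ^ h : ℕ) : ℤ)) →
      (∀ j i, |s j i| ≤ ((b ^ h : ℕ) : ℤ)) → (∀ j, ∃ n : ℤ, Exp b (a j) (x j - n)) →
      ∀ (L z : ℕ) (E : Finset ℕ), (∀ j i, i < L → i ∉ E → s j i = a j i) →
      (d = 1 → E = ∅) → LZ (fun i => fun j => s j i) L z →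
        (L : ℝ) ≤ C * (d * μ) ^ (z + E.card) := by
  classical
  obtain ⟨K, hK⟩ : ∃ K : ℝ, K = d * μ := ⟨_, rfl⟩
  rw [← hK] at hK2
  have hl2 : 0 < Real.log 2 := Real.log_pos one_lt_two
  obtain ⟨C0, hC0⟩ : ∃ C0 : ℝ, C0 = h + 3 + |Real.log (2 / c)| / Real.log 2 := ⟨_, rfl⟩
  have hC01 : 1 ≤ C0 := by
    rw [hC0]
    have h1 : 0 ≤ |Real.log (2 / c)| / Real.log 2 := by positivity
    have h2 : (0 : ℝ) ≤ h := Nat.cast_nonneg _
    linarith
  refine ⟨2 * C0, by positivity, ?_⟩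
  intro x hM b hb a s ha hs hx L z E hE hdE hLZ
  obtain ⟨B, hB⟩ : ∃ B : ℝ, B = Real.log b := ⟨_, rfl⟩
  have hB2 : Real.log 2 ≤ B := by
    rw [hB]
    exact Real.log_le_log (by norm_num) (by exact_mod_cast hb)
  have hB0 : 0 < B := by linarith
  rw [← hK]
  obtain ⟨A, hA⟩ : ∃ A : ℝ, A = C0 * B := ⟨_, rfl⟩
  have hA0 : 0 < A := by
    rw [hA]
    positivity
  have hBA : B ≤ A := by
    rw [hA]
    nlinarith
  by_contra hcon
  push Not at hcon
  obtain ⟨cc, hc0, hcz, hph⟩ := hLZ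
  -- the events
  obtain ⟨S, hS⟩ : ∃ S : Finset ℝ, S = (Icc 1 z).image (fun i => (cc i : ℝ) * Real.log b) ∪
        E.image (fun e : ℕ => ((e : ℝ) + 1) * Real.log b) := ⟨_, rfl⟩
  have hScard : S.card ≤ z + E.card := by
    rw [hS]
    refine (Finset.card_union_le _ _).trans (Nat.add_le_add ?_ Finset.card_image_le)
    refine Finset.card_image_le.trans ?_
    rw [Nat.card_Icc]
    omega
  obtain ⟨r, hr, hfree⟩ := free_window S (wd A K) (wd_mono hA0.le (by linarith))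
  have hrΛ : wd A K (r + 1) < L * Real.log b := by
    calc wd A K (r + 1) ≤ wd A K ((z + E.card) + 1) :=
          wd_mono hA0.le (by linarith) (by omega)
      _ ≤ 2 * A * K ^ (z + E.card) := wd_le hA0.le hK2 _
      _ = 2 * C0 * K ^ (z + E.card) * B := by
        rw [hA]
        ring
      _ < L * B := mul_lt_mul_of_pos_right hcon hB0
      _ = _ := by rw [hB]
  obtain ⟨t, ht⟩ : ∃ t : ℝ, t = wd A K r := ⟨_, rfl⟩
  have ht0 : 0 ≤ t := by
    rw [ht]
    exact wd_nonneg hA0.le (by linarith) r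
  rw [wd_succ, ← ht] at hfree hrΛ
  have htt' : t + B ≤ K * t + A := by nlinarith
  obtain ⟨q, hq1, hq2, hP⟩ := win hb hd ha hs hx hc0 E
      (fun j i hi => hE j i (by rw [← hcz]; exact hi)) hdE ht0 hB.symm.le htt'
      (by rw [hcz]; exact hrΛ)
      (fun i hi => by
        rcases hph i hi with h1 | ⟨h1, p, h2, h3, h4⟩
        · exact Or.inl h1
        · exact Or.inr ⟨h1, p, h2, h3, fun l h5 h6 j => congrFun (h4 l h5 h6) j⟩)
      (fun i h1 h2 => hfree _ (by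
        rw [hS]
        exact Finset.mem_union_left _
          (Finset.mem_image_of_mem _ (Finset.mem_Icc.2 ⟨h1, h2⟩))))
      (fun e he => hfree _ (by
        rw [hS]
        exact Finset.mem_union_right _
          (Finset.mem_image_of_mem (fun e : ℕ => ((e : ℝ) + 1) * Real.log b) he)))
  have hfin := bound hμ hc hM hq1 hq2 (t' := K * t + A) (D := (h + 2) * B) hP
  have h11 : |Real.log (2 / c)| ≤ |Real.log (2 / c)| / Real.log 2 * B := by
    rw [div_mul_eq_mul_div, le_div_iff₀ hl2]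
    exact mul_le_mul_of_nonneg_left hB2 (abs_nonneg _)
  have h12 := le_abs_self (Real.log (2 / c))
  have h13 : μ * ((d : ℝ) * t) = K * t := by
    rw [hK]
    ring
  have h14 : A = (h + 2) * B + B + |Real.log (2 / c)| / Real.log 2 * B := by
    rw [hA, hC0]
    ring
  rw [h13] at hfin
  linarith

/-- **At every large scale one of the expansions has many phrases.** -/
theorem largeE (J : ℕ) (μ c : ℝ) (hμ : 1 ≤ μ) (hc : 0 < c) (d : ℕ) (hd : d = 1 ∨ d = 2)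
    (hK2 : 2 ≤ (d : ℝ) * J * μ) (h : ℕ) (κ : ℝ) (hκ : J * Real.log (d * J * μ) < κ) :
    ∃ L₀ : ℕ, ∀ x : Fin J → ℝ, Meas J x μ c 0 → ∀ b : ℕ, 2 ≤ b →
      ∀ a : Fin J → ℕ → ℤ, (∀ j i, |a j i| ≤ ((b ^ h : ℕ) : ℤ)) →
      (∀ j, ∃ n : ℤ, Exp b (a j) (x j - n)) →
      ∀ L : ℕ, L₀ ≤ L → ∃ j, ∀ s : ℕ → ℤ, (∀ i, |s i| ≤ ((b ^ h : ℕ) : ℤ)) →
        ∀ (z : ℕ) (E : Finset ℕ), (∀ i, i < L → i ∉ E → s i = a j i) → (d = 1 → E = ∅) →
        LZ s L z → Real.log L ≤ κ * (z + E.card) := by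
  classical
  obtain ⟨K, hK⟩ : ∃ K : ℝ, K = d * J * μ := ⟨_, rfl⟩
  have hK2' : 2 ≤ K := by rw [hK]; exact hK2
  have hlK : 0 < Real.log K := Real.log_pos (by linarith)
  obtain ⟨C, hC, hmain⟩ := sepE J μ c hμ hc d hd hK2 h
  rw [← hK] at hκ
  have hJ0 : (0 : ℝ) ≤ J := Nat.cast_nonneg _
  have hκ0 : 0 < κ := lt_of_le_of_lt (by positivity) hκ
  obtain ⟨θ, hθ⟩ : ∃ θ : ℝ, θ = J * Real.log K / κ := ⟨_, rfl⟩
  have hθ1 : θ < 1 := by
    rw [hθ, div_lt_one hκ0]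
    exact hκ
  obtain ⟨F, hF⟩ : ∃ F : ℝ, F = Real.log (C * J) / (1 - θ) := ⟨_, rfl⟩
  refine ⟨⌈Real.exp F⌉₊ + 2, ?_⟩
  intro x hM b hb a ha hex L hL
  have hJ1 : 0 < J := by
    obtain ⟨j, -⟩ := hM 1 le_rfl (fun _ => 0)
    exact lt_of_le_of_lt (Nat.zero_le _) j.2
  have hJ1' : (0 : ℝ) < J := by exact_mod_cast hJ1
  by_contra hcon
  push Not at hcon
  choose s hs z E hE hdE hz1 hz2 using hcon
  have hlb0 : 0 < Real.log b := Real.log_pos (by exact_mod_cast (by omega : 1 < b))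
  have h1 := hmain x hM (fun _ => b) (fun j => hb) a s ha hs hex (fun _ => L) z E hE
    (fun hd j => hdE j hd) hz1 (L * Real.log b) (fun j => le_rfl)
  rw [← hK, Finset.sum_const, Finset.card_univ, Fintype.card_fin, nsmul_eq_mul] at h1
  have hL1 : Real.exp F + 1 ≤ L := by
    have h2 := Nat.le_ceil (Real.exp F)
    have h3 : ((⌈Real.exp F⌉₊ + 2 : ℕ) : ℝ) ≤ L := by exact_mod_cast hL
    push_cast at h3
    linarith
  have hF0 := Real.exp_pos F
  have hL0 : (0 : ℝ) < L := by linarith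
  have h2 : (L : ℝ) ≤ C * J * K ^ (∑ j, (z j + (E j).card)) := by
    have h3 : (L : ℝ) * Real.log b ≤ C * J * K ^ (∑ j, (z j + (E j).card)) * Real.log b := by
      calc _ ≤ _ := h1
        _ = _ := by ring
    exact le_of_mul_le_mul_right h3 hlb0
  have h3 := Real.log_le_log hL0 h2
  rw [Real.log_mul (by positivity) (by positivity), Real.log_pow] at h3
  have h4 : κ * ((∑ j, (z j + (E j).card) : ℕ) : ℝ) ≤ J * Real.log L := by
    push_cast
    rw [Finset.mul_sum]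
    calc ∑ j, κ * ((z j : ℝ) + (E j).card) ≤ ∑ _j : Fin J, Real.log L :=
          Finset.sum_le_sum fun j _ => (hz2 j).le
      _ = _ := by rw [Finset.sum_const, Finset.card_univ, Fintype.card_fin, nsmul_eq_mul]
  have h5 : ((∑ j, (z j + (E j).card) : ℕ) : ℝ) * Real.log K ≤ θ * Real.log L := by
    have h6 : ((∑ j, (z j + (E j).card) : ℕ) : ℝ) ≤ J * Real.log L / κ := by
      rw [le_div_iff₀ hκ0]
      linarith
    have h7 := mul_le_mul_of_nonneg_right h6 hlK.le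
    calc _ ≤ _ := h7
      _ = θ * Real.log L := by rw [hθ]; ring
  have h6 : (1 - θ) * Real.log L ≤ Real.log (C * J) := by linarith
  have h7 : Real.log L ≤ F := by
    rw [hF, le_div_iff₀ (by linarith)]
    linarith
  have h8 : (L : ℝ) ≤ Real.exp F := by
    rw [← Real.exp_log hL0]
    exact Real.exp_le_exp.2 h7
  linarith

end Pool.Agent.K3h2.LZ
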